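import Pool.Agent.Helper6_Eng.Stmts

/-!
Squad ENG: modules SBR (braid criterion for PSp) and SBC (base change for PSp).
-/

set_option autoImplicit false

namespace Pool.Agent.Eng.H69

/-- An isomorphism maps the center onto the center. -/
theorem map_center {G H : Type} [Group G] [Group H] (e : G ≃* H) :
    (Subgroup.center G).map (e : G →* H) = Subgroup.center H := by
  ext x
  rw [Subgroup.mem_map]
  constructor
  · rintro ⟨g, hg, rfl⟩
    rw [Subgroup.mem_center_iff] at hg ⊢
    intro h
    have := hg (e.symm h)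
    have h2 := congrArg e this
    simpa using h2
  · intro hx
    refine ⟨e.symm x, ?_, by simp⟩
    rw [Subgroup.mem_center_iff] at hx ⊢
    intro g
    have := hx (e g)
    have h2 := congrArg e.symm this
    simpa using h2

/-- Module SBR. -/
theorem sbr (hBr : BraidStmt) (hCen : SpCenterStmt) (hTr : SpTransStmt) (hInj : PdInjStmt) :
    SpBraidStmt := by
  intro F V _ _ _ _ ω n N hω hdim w z hw hz hbr hc
  obtain ⟨e⟩ := hTr F V ω n hω hdim
  have h1 : PD (↥(SpV ω) ⧸ Subgroup.center ↥(SpV ω)) N := by
    apply hBr ↥(SpV ω) (Subgroup.center ↥(SpV ω)) ⟨w, hw⟩ ⟨z, hz⟩ N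
    · apply Subtype.ext
      exact hbr
    · intro d hd hmem
      obtain ⟨c, hcc⟩ := hCen F V ω hω _ hmem
      apply hc d c hd
      intro v
      have := hcc ((w ^ (2 * d)) (z v))
      rw [← this]
      simp only [Subgroup.coe_mul, Subgroup.coe_inv, Subgroup.coe_pow, LinearEquiv.mul_apply]
      congr 1
      have h2 : (w ^ (2 * d))⁻¹ ((w ^ (2 * d)) (z v)) = z v := by
        rw [← LinearEquiv.mul_apply, inv_mul_cancel]
        rfl
      have h3 : z⁻¹ (z v) = v := by
        rw [← LinearEquiv.mul_apply, inv_mul_cancel]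
        rfl
      rw [h2, h3]
  have e2 : ↥(SpV ω) ⧸ Subgroup.center ↥(SpV ω) ≃* PSp n F :=
    QuotientGroup.congr _ _ e (map_center e)
  exact hInj _ _ e2.toMonoidHom N e2.injective h1

/-- The base change homomorphism. -/
noncomputable def bc (k F : Type) [Field k] [Field F] [Algebra k F] (n : ℕ) : Sp n k →* Sp n F :=
  (((algebraMap k F).mapMatrix (m := Fin n ⊕ Fin n)).toMonoidHom.comp
    (Matrix.symplecticGroup (Fin n) k).subtype).codRestrict (Matrix.symplecticGroup (Fin n) F) (by
      intro g
      have hg := g.2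
      rw [SymplecticGroup.mem_iff] at hg ⊢
      have h2 := congrArg ((algebraMap k F).mapMatrix) hg
      rw [map_mul, map_mul] at h2
      have hJ : (algebraMap k F).mapMatrix (Matrix.J (Fin n) k) = Matrix.J (Fin n) F := by
        ext i j
        rcases i with i | i <;> rcases j with j | j <;>
          simp [Matrix.J, Matrix.fromBlocks, Matrix.one_apply, apply_ite]
      rw [hJ] at h2
      exact h2)

/-- Module SBC. -/
theorem sbc (hCen : PdCenStmt) (hMat : SpCenterMatStmt) : SpBcStmt := by
  intro k F _ _ _ n N h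
  apply hCen (Sp n k) (Sp n F) (bc k F n) (Subgroup.center _) (Subgroup.center _) N _ h
  intro g hg
  rw [hMat] at hg ⊢
  have hinj : Function.Injective ((algebraMap k F).mapMatrix (m := Fin n ⊕ Fin n)) := by
    intro A B hAB
    ext i j
    exact (algebraMap k F).injective (congrFun (congrFun hAB i) j)
  have hval : ((bc k F n g : Sp n F) : Matrix (Fin n ⊕ Fin n) (Fin n ⊕ Fin n) F) =
    (algebraMap k F).mapMatrix (g : Matrix (Fin n ⊕ Fin n) (Fin n ⊕ Fin n) k) := rfl
  rw [hval] at hg
  rcases hg with hg | hg
  · left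
    apply hinj
    rw [hg, map_one]
  · right
    apply hinj
    rw [hg, map_neg, map_one]

end Pool.Agent.Eng.H69
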