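import Pool.Agent.Helper13_Eng2.Stmts

/-!
Squad ENG, part 2: module HCEN (center of the special unitary group).
-/

set_option autoImplicit false

namespace Pool.Agent.Eng.H69

open Matrix

section

variable {K : Type} [Field K] [StarRing K] {n : ℕ}

/-- an element of norm one which is not its own inverse -/
theorem exists_norm_one (h : ∃ x : K, star x ≠ x) : ∃ z : K, star z * z = 1 ∧ z * z ≠ 1 := by
  obtain ⟨x, hx⟩ := h
  have key : ∀ y : K, star y ≠ y → star y ≠ -y → ∃ z : K, star z * z = 1 ∧ z * z ≠ 1 := by
    intro y h1 h2
    have hy : y ≠ 0 := by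
      rintro rfl
      simp at h1
    have hy' : star y ≠ 0 := fun h => hy (star_eq_zero.1 h)
    refine ⟨star y / y, ?_, ?_⟩
    · rw [star_div₀, star_star]
      field_simp
    · intro h3
      have h4 : (star y - y) * (star y + y) = 0 := by
        field_simp at h3
        linear_combination h3
      rcases mul_eq_zero.1 h4 with h5 | h5
      · exact h1 (sub_eq_zero.1 h5)
      · exact h2 (eq_neg_of_add_eq_zero_left h5)
  by_cases h2 : star x = -x
  · refine key (x + 1) ?_ ?_
    · rw [star_add, star_one]
      intro h3
      exact hx (add_right_cancel h3)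
    · rw [star_add, star_one, h2]
      intro h3
      have h4 : (2 : K) = 0 := by linear_combination h3
      apply hx
      rw [h2]
      have h5 : x + x = 0 := by rw [← two_mul, h4, zero_mul]
      exact (eq_neg_of_add_eq_zero_left h5).symm
  · exact key x hx h2

theorem mem_SU {A : Matrix (Fin n) (Fin n) K} (h1 : A * star A = 1) (h2 : A.det = 1) :
    A ∈ Matrix.specialUnitaryGroup (Fin n) K :=
  mem_specialUnitaryGroup_iff.2 ⟨mem_unitaryGroup_iff.2 h1, h2⟩

/-- diagonal matrices -/
theorem diag_unit (d : Fin n → K) (h : ∀ k, star (d k) * d k = 1) :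
    Matrix.diagonal d * star (Matrix.diagonal d) = 1 := by
  rw [star_eq_conjTranspose, diagonal_conjTranspose, diagonal_mul_diagonal, ← diagonal_one]
  congr 1
  funext k
  rw [mul_comm]
  exact h k

theorem perm_unit (σ : Equiv.Perm (Fin n)) :
    (σ.permMatrix K) * star (σ.permMatrix K) = 1 := by
  rw [star_eq_conjTranspose, conjTranspose_permMatrix, ← permMatrix_mul, inv_mul_cancel,
    permMatrix_one]

end

/-- Module HCEN. -/
theorem hcen : HcenStmt := by
  intro K _ _ _ n g hx
  constructor
  · intro hg
    rw [Subgroup.mem_center_iff] at hg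
    obtain ⟨z, hz1, hz2⟩ := exists_norm_one hx
    have hz0 : z ≠ 0 := by
      rintro rfl
      simp at hz1
    have hzi : star z⁻¹ * z⁻¹ = 1 := by
      rw [star_inv₀, ← mul_inv, hz1, inv_one]
    set A : Matrix (Fin n) (Fin n) K := (g : Matrix (Fin n) (Fin n) K) with hA
    -- off-diagonal entries
    have hoff : ∀ a b : Fin n, a ≠ b → A a b = 0 := by
      intro a b hab
      set d : Fin n → K := fun k => if k = a then z else if k = b then z⁻¹ else 1 with hd
      have hd1 : ∀ k, star (d k) * d k = 1 := by
        intro k
        simp only [hd]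
        split_ifs
        · exact hz1
        · exact hzi
        · simp
      have hdet : (Matrix.diagonal d).det = 1 := by
        rw [det_diagonal]
        have h1 : ∏ k, d k = ∏ k ∈ ({a, b} : Finset (Fin n)), d k := by
          refine (Finset.prod_subset (Finset.subset_univ _) fun k _ hk => ?_).symm
          rw [Finset.mem_insert, Finset.mem_singleton, not_or] at hk
          simp [hd, hk.1, hk.2]
        rw [h1, Finset.prod_pair hab]
        simp [hd, hab.symm, hz0]
      have h2 := hg ⟨_, mem_SU (diag_unit d hd1) hdet⟩
      have h3 : Matrix.diagonal d * A = A * Matrix.diagonal d := congrArg Subtype.val h2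
      have h4 := congrFun (congrFun h3 a) b
      rw [diagonal_mul, mul_diagonal] at h4
      have h5 : d a = z := by simp [hd]
      have h6 : d b = z⁻¹ := by simp [hd, hab.symm]
      rw [h5, h6] at h4
      have h7 : (z - z⁻¹) * A a b = 0 := by linear_combination h4
      rcases mul_eq_zero.1 h7 with h8 | h8
      · exfalso
        apply hz2
        have h9 : z = z⁻¹ := sub_eq_zero.1 h8
        calc z * z = z⁻¹ * z := by rw [← h9]
          _ = 1 := inv_mul_cancel₀ hz0
      · exact h8
    -- diagonal entries
    have hdia : ∀ a b : Fin n, a ≠ b → A a a = A b b := by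
      intro a b hab
      set d : Fin n → K := fun k => if k = a then -1 else 1 with hd
      have hd1 : ∀ k, star (d k) * d k = 1 := by
        intro k
        simp only [hd]
        split_ifs <;> simp
      set P : Matrix (Fin n) (Fin n) K := (Equiv.swap a b).permMatrix K with hP
      have hu : (Matrix.diagonal d * P) * star (Matrix.diagonal d * P) = 1 := by
        rw [star_mul, mul_assoc, ← mul_assoc P, perm_unit, one_mul, diag_unit d hd1]
      have hdet : (Matrix.diagonal d * P).det = 1 := by
        rw [det_mul, det_diagonal, hP, det_permutation, Equiv.Perm.sign_swap hab]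
        simp [hd]
      have h2 := hg ⟨_, mem_SU hu hdet⟩
      have h3 : (Matrix.diagonal d * P) * A = A * (Matrix.diagonal d * P) :=
        congrArg Subtype.val h2
      have h4 := congrFun (congrFun h3 a) b
      have hPab : ∀ i j, P i j = if Equiv.swap a b i = j then 1 else 0 := by
        intro i j
        simp [hP, Equiv.Perm.permMatrix, PEquiv.toMatrix_apply, Equiv.toPEquiv_apply, eq_comm]
      have h5 : ((Matrix.diagonal d * P) * A) a b = -A b b := by
        rw [mul_assoc, diagonal_mul, mul_apply, Finset.sum_eq_single b]
        · rw [hPab]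
          simp [hd]
        · intro k _ hk
          rw [hPab, Equiv.swap_apply_left, if_neg hk.symm, zero_mul]
        · simp
      have h6 : (A * (Matrix.diagonal d * P)) a b = -A a a := by
        rw [mul_apply, Finset.sum_eq_single a]
        · rw [diagonal_mul, hPab]
          simp [hd]
        · intro k _ hk
          rw [hoff a k hk.symm, zero_mul]
        · simp
      rw [h5, h6] at h4
      exact (neg_injective h4).symm
    rcases n with _ | n
    · exact ⟨1, by ext i; exact i.elim0⟩
    · refine ⟨A 0 0, ?_⟩
      ext i j
      rw [Matrix.smul_apply, one_apply, smul_eq_mul]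
      by_cases hij : i = j
      · subst hij
        rw [if_pos rfl, mul_one]
        by_cases hi : i = 0
        · rw [hi]
        · exact hdia i 0 hi
      · rw [if_neg hij, mul_zero]
        exact hoff i j hij
  · rintro ⟨c, hc⟩
    rw [Subgroup.mem_center_iff]
    intro k
    apply Subtype.ext
    show (k : Matrix (Fin n) (Fin n) K) * (g : Matrix (Fin n) (Fin n) K)
      = (g : Matrix (Fin n) (Fin n) K) * (k : Matrix (Fin n) (Fin n) K)
    rw [hc]
    simp

end Pool.Agent.Eng.H69
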