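import Pool.Agent.Helper13_Eng2.Stmts

/-!
Squad ENG, part 2: module XR (permutation of order 3 acting on the diagonal torus).
-/

set_option autoImplicit false

namespace Pool.Agent.Eng.H69X

open Matrix

section

variable {K : Type} [Field K] [StarRing K]

theorem mem_SU {n : ℕ} {A : Matrix (Fin n) (Fin n) K} (h1 : A * star A = 1) (h2 : A.det = 1) :
    A ∈ Matrix.specialUnitaryGroup (Fin n) K :=
  mem_specialUnitaryGroup_iff.2 ⟨mem_unitaryGroup_iff.2 h1, h2⟩

/-- diagonal matrix -/
def dg (a b c : K) : Matrix (Fin 3) (Fin 3) K := !![a, 0, 0; 0, b, 0; 0, 0, c]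

/-- matrix of the 3-cycle -/
def cy : Matrix (Fin 3) (Fin 3) K := !![0, 1, 0; 0, 0, 1; 1, 0, 0]

theorem dg_mul (a b c a' b' c' : K) : dg a b c * dg a' b' c' = dg (a * a') (b * b') (c * c') := by
  ext i j
  fin_cases i <;> fin_cases j <;> simp [dg, mul_apply, Fin.sum_univ_three]

theorem dg_unit {a b c : K} (ha : a * star a = 1) (hb : b * star b = 1) (hc : c * star c = 1) :
    dg a b c * star (dg a b c) = 1 := by
  ext i j
  fin_cases i <;> fin_cases j <;>
    simp [dg, mul_apply, Fin.sum_univ_three, star_eq_conjTranspose, ha, hb, hc]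

theorem dg_det (a b c : K) : (dg a b c).det = a * b * c := by
  rw [det_fin_three]
  simp [dg]

theorem cy_unit : (cy : Matrix (Fin 3) (Fin 3) K) * star cy = 1 := by
  ext i j
  fin_cases i <;> fin_cases j <;>
    simp [cy, mul_apply, Fin.sum_univ_three, star_eq_conjTranspose]

theorem cy_det : (cy : Matrix (Fin 3) (Fin 3) K).det = 1 := by
  rw [det_fin_three]
  simp [cy]

/-- `dg a b c * y = y * dg ..` -/
theorem dg_cy (a b c : K) : dg a b c * cy = cy * dg c a b := by
  ext i j
  fin_cases i <;> fin_cases j <;> simp [dg, cy, mul_apply, Fin.sum_univ_three]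

end

/-- the automorphism of order three -/
def TT (r : ℕ) : AddMonoid.End (ZMod r × ZMod r) where
  toFun m := (-m.1 - m.2, m.1)
  map_zero' := by simp
  map_add' m m' := by
    ext
    · simp only [Prod.fst_add, Prod.snd_add]
      ring
    · simp

theorem TT_apply (r : ℕ) (m : ZMod r × ZMod r) : TT r m = (-m.1 - m.2, m.1) := rfl

theorem TT_cube (r : ℕ) : TT r ^ 3 = 1 := by
  refine AddMonoidHom.ext fun m => ?_
  rw [pow_succ, pow_succ, pow_one]
  show TT r (TT r (TT r m)) = m
  rw [TT_apply, TT_apply, TT_apply]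
  ext
  · simp only
    ring
  · simp

/-- Module XR. -/
theorem xr (hGH : GHStmt) (hCen : HcenStmt) : XrStmt := by
  intro K _ _ _ q r hQ hr hr5 hrq d hd hlaw
  have : Fact r.Prime := ⟨hr⟩
  have : NeZero r := ⟨hr.ne_zero⟩
  have hq2 := hQ.two_le
  -- an element of order `r`
  have hcard : Nat.card Kˣ = q ^ 2 - 1 := by rw [Nat.card_units, hQ.card]
  have hdvd : r ∣ Nat.card Kˣ := by
    rw [hcard]
    have h1 : q ^ 2 - 1 = (q + 1) * (q - 1) := by
      have := Nat.sq_sub_sq q 1
      simpa using this
    rw [h1]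
    exact Dvd.dvd.mul_right hrq _
  obtain ⟨u, hu⟩ := exists_prime_orderOf_dvd_card' (G := Kˣ) r hdvd
  set t : K := (u : K) with ht
  have hot : orderOf t = r := by rw [ht, orderOf_units, hu]
  have ht0 : t ≠ 0 := u.ne_zero
  have htr : t ^ r = 1 := by rw [← hot]; exact pow_orderOf_eq_one t
  have hst : star t * t = 1 := by
    rw [hQ.star, ← pow_succ]
    exact orderOf_dvd_iff_pow_eq_one.1 (by rw [hot]; exact hrq)
  have hinj : ∀ a b : ZMod r, t ^ a.val = t ^ b.val → a = b := by
    intro a b hab
    apply ZMod.val_injective r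
    exact pow_injOn_Iio_orderOf (by rw [Set.mem_Iio, hot]; exact ZMod.val_lt a)
      (by rw [Set.mem_Iio, hot]; exact ZMod.val_lt b) hab
  set ψ : AddChar (ZMod r) K := AddChar.zmodChar r htr with hψ
  have hψv : ∀ a, ψ a = t ^ a.val := fun a => AddChar.zmodChar_apply htr a
  have hψi : ∀ a b : ZMod r, ψ a = ψ b → a = b := fun a b h => by
    rw [hψv, hψv] at h
    exact hinj a b h
  have hψu : ∀ a, ψ a * star (ψ a) = 1 := by
    intro a
    rw [hψv, star_pow, ← mul_pow, mul_comm, hst, one_pow]
  have hne : ∃ x : K, star x ≠ x := by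
    refine ⟨t, fun h => ?_⟩
    rw [h, ← pow_two] at hst
    have h2 := orderOf_dvd_of_pow_eq_one hst
    rw [hot] at h2
    have := Nat.le_of_dvd (by norm_num) h2
    omega
  -- the torus
  let f : Multiplicative (ZMod r × ZMod r) →* SU 3 K :=
    { toFun := fun m => ⟨dg (ψ (Multiplicative.toAdd m).1) (ψ (Multiplicative.toAdd m).2)
        (ψ (-(Multiplicative.toAdd m).1 - (Multiplicative.toAdd m).2)),
        mem_SU (dg_unit (hψu _) (hψu _) (hψu _)) (by
          rw [dg_det, ← AddChar.map_add_eq_mul, ← AddChar.map_add_eq_mul]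
          simp)⟩
      map_one' := by
        apply Subtype.ext
        show dg (ψ (0 : ZMod r × ZMod r).1) (ψ (0 : ZMod r × ZMod r).2)
          (ψ (-(0 : ZMod r × ZMod r).1 - (0 : ZMod r × ZMod r).2)) = 1
        ext i j
        fin_cases i <;> fin_cases j <;> simp [dg]
      map_mul' := fun m m' => by
        apply Subtype.ext
        show dg (ψ ((Multiplicative.toAdd m).1 + (Multiplicative.toAdd m').1))
            (ψ ((Multiplicative.toAdd m).2 + (Multiplicative.toAdd m').2))
            (ψ (-((Multiplicative.toAdd m).1 + (Multiplicative.toAdd m').1)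
              - ((Multiplicative.toAdd m).2 + (Multiplicative.toAdd m').2)))
          = dg (ψ (Multiplicative.toAdd m).1) (ψ (Multiplicative.toAdd m).2)
            (ψ (-(Multiplicative.toAdd m).1 - (Multiplicative.toAdd m).2))
          * dg (ψ (Multiplicative.toAdd m').1) (ψ (Multiplicative.toAdd m').2)
            (ψ (-(Multiplicative.toAdd m').1 - (Multiplicative.toAdd m').2))
        rw [dg_mul, ← AddChar.map_add_eq_mul, ← AddChar.map_add_eq_mul,
          ← AddChar.map_add_eq_mul]
        congr 2
        ring }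
  have hf : ∀ m : ZMod r × ZMod r, ((f (Multiplicative.ofAdd m) : SU 3 K) :
      Matrix (Fin 3) (Fin 3) K) = dg (ψ m.1) (ψ m.2) (ψ (-m.1 - m.2)) := fun m => rfl
  let y : SU 3 K := ⟨cy, mem_SU cy_unit cy_det⟩
  have h1 := hGH (SU 3 K) (Subgroup.center (SU 3 K)) (ZMod r × ZMod r) f y (TT r) 3
    (fun m hm => by
      obtain ⟨c, hc⟩ := (hCen K 3 _ hne).1 hm
      rw [hf] at hc
      have e0 := congrFun (congrFun hc 0) 0
      have e1 := congrFun (congrFun hc 1) 1
      have e2 := congrFun (congrFun hc 2) 2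
      simp only [dg, Matrix.smul_apply, Matrix.one_apply_eq, smul_eq_mul, mul_one] at e0 e1 e2
      have e0' : ψ m.1 = c := by simpa using e0
      have e1' : ψ m.2 = c := by simpa using e1
      have e2' : ψ (-m.1 - m.2) = c := by simpa using e2
      have f1 : m.1 = m.2 := hψi _ _ (e0'.trans e1'.symm)
      have f2 : m.1 = -m.1 - m.2 := hψi _ _ (e0'.trans e2'.symm)
      have f3 : (3 : ZMod r) * m.1 = 0 := by
        rw [← f1] at f2
        linear_combination f2
      have h3 : (3 : ZMod r) ≠ 0 := by
        intro h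
        have h4 : ((3 : ℕ) : ZMod r) = 0 := by exact_mod_cast h
        rw [ZMod.natCast_eq_zero_iff] at h4
        have := Nat.le_of_dvd (by norm_num) h4
        omega
      have f4 : m.1 = 0 := by
        rcases mul_eq_zero.1 f3 with h | h
        · exact absurd h h3
        · exact h
      ext
      · exact f4
      · rw [← f1]; exact f4)
    (fun m => by
      have h2 : f (Multiplicative.ofAdd m) * y = y * f (Multiplicative.ofAdd (TT r m)) := by
        apply Subtype.ext
        show (f (Multiplicative.ofAdd m) : SU 3 K).1 * cy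
          = cy * (f (Multiplicative.ofAdd (TT r m)) : SU 3 K).1
        rw [hf, hf, dg_cy, TT_apply]
        congr 2
        ring_nf
      rw [mul_assoc, h2, ← mul_assoc, inv_mul_cancel, one_mul])
    (TT_cube r)
    (by
      rw [Nat.card_prod, Nat.card_zmod]
      have h3 : Nat.Coprime 3 r := by
        rw [Nat.coprime_primes Nat.prime_three hr]
        omega
      exact Nat.Coprime.mul_right h3 h3)
    d hlaw
  -- the order of `T`
  have ho : orderOf (TT r) = 3 := by
    have : Fact (Nat.Prime 3) := ⟨Nat.prime_three⟩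
    refine orderOf_eq_prime (TT_cube r) fun h => ?_
    have h2 := DFunLike.congr_fun h ((0, 1) : ZMod r × ZMod r)
    rw [TT_apply] at h2
    have h3 := congrArg Prod.snd h2
    have h4 : (0 : ZMod r) = 1 := h3
    exact zero_ne_one h4
  have h5 : 3 ∣ 2 * d := by
    rw [← ho]
    exact orderOf_dvd_of_pow_eq_one h1.1
  exact Nat.Coprime.dvd_of_dvd_mul_left (by norm_num) h5

end Pool.Agent.Eng.H69X
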